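import Mathlib
import Pool.Agent.Lib.P5dc868.Defs
import Pool.Agent.Lib.P5dc868.ExtA
import Pool.Agent.Lib.P5dc868.DLm
import Pool.Agent.Lib.P5dc868.Dual
import Pool.Agent.Lib.P5dc868.FrobR
import Pool.Agent.Lib.P5dc868.T1
import Pool.Agent.Lib.P5dc868.T2
import Pool.Agent.Lib.P5dc868.CycRes
import Pool.Agent.Lib.P5dc868.NCb

set_option autoImplicit false

/-!
# The Gorenstein bimodule conjecture, the Nakayama conjecture and the Auslander–Reiten conjecture
are equivalent

`ExtZero R M Y` (`Ext^i_R(M, Y) = 0` for all `i ≥ 1`), `DL K A` (the left module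
`D(A) = Hom_K(A, K)`) and `DomDimInf A` (infinite dominant dimension) are defined in
`Pool.Agent.Lib.P5dc868.Defs`.
-/

namespace Pool.Agent.Results.MP_5dc868_al.ArcEquivalence

open Pool.Agent.Lib.P5dc868

/-- `A` is selfinjective: the left and the right regular module are injective. -/
def SelfInj (A : Type) [Ring A] : Prop :=
  Module.Injective A A ∧ Module.Injective Aᵐᵒᵖ A

/-- The Nakayama conjecture for `A`. -/
def NC (A : Type) [Ring A] : Prop :=
  DomDimInf A → SelfInj A

/-- The first Tachikawa conjecture for the `K`-algebra `A`. -/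
def TC1 (K A : Type) [Field K] [Ring A] [Algebra K A] : Prop :=
  ExtZero A (DL K A) A → SelfInj A

/-- The second Tachikawa conjecture for `A`. -/
def TC2 (A : Type) [Ring A] : Prop :=
  SelfInj A → ∀ (M : Type) [AddCommGroup M] [Module A M] [Module.Finite A M],
    ExtZero A M M → Module.Projective A M

/-- The Auslander–Reiten conjecture for `A`. -/
def ARC (A : Type) [Ring A] : Prop :=
  ∀ (M : Type) [AddCommGroup M] [Module A M] [Module.Finite A M],
    ExtZero A M M → ExtZero A M A → Module.Projective A M

variable {K B : Type} [Field K] [Ring B] [Algebra K B] [FiniteDimensional K B]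

/-- Main step: the 3-fold trivial extension `S` of `B` and `A = End_S(S × N)`, `N` the module
induced from `M`. -/
theorem main_step (M : Type) [AddCommGroup M] [Module B M] [Module.Finite B M]
    (hM : ExtZero B M M) (hB : ExtZero B M B)
    (h : (NC (Module.End (Cyc K B) (Cyc K B × Ind K B M)) ∨
      TC1 K (Module.End (Cyc K B) (Cyc K B × Ind K B M))) ∨ TC2 (Cyc K B)) :
    Module.Projective B M := by
  have hfin : Module.Finite (Cyc K B) (Ind K B M) := Ind.finite'
  have hfinK : FiniteDimensional K (Ind K B M) := Module.Finite.trans (Cyc K B) _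
  obtain ⟨k, ε, d, hε, h0, hd, h1, h2⟩ := exists_cycRes (K := K) M hM hB
  have hP : ∀ n, Module.Finite (Cyc K B) (Ind K B (Fin (k n) → B)) ∧
      Module.Projective (Cyc K B) (Ind K B (Fin (k n) → B)) :=
    fun n => ⟨Ind.finite (k n), Ind.projective (k n)⟩
  apply Ind.projective_of_ind (K := K)
  rcases h with (h | h) | h
  · exact (Cyc.frob (K := K) (B := B)).projective_of_injective
      (h ((Cyc.frob (K := K) (B := B)).domDim (fun n => Ind K B (Fin (k n) → B)) hP ε d hε h0
        hd h1)).2
  · exact (Cyc.frob (K := K) (B := B)).projective_of_injective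
      (h ((Cyc.frob (K := K) (B := B)).extZero (fun n => Ind K B (Fin (k n) → B)) hP ε d hε h0
        hd h1 h2)).2
  · refine h ⟨(Cyc.frob (K := K) (B := B)).left_injective,
      right_injective_of_nondeg Cyc.lam Cyc.frob.nondeg⟩ _ ?_
    refine extZero_of_res (fun n => Ind K B (Fin (k n) → B)) (fun n => (hP n).2) ε d hε h0 hd ?_
    intro n f hf
    obtain ⟨g, hg⟩ := h1 n ((LinearMap.inr (Cyc K B) (Cyc K B) (Ind K B M)) ∘ₗ f)
      (fun y => by rw [LinearMap.comp_apply, hf y, map_zero])
    refine ⟨LinearMap.snd (Cyc K B) (Cyc K B) (Ind K B M) ∘ₗ g, fun x => ?_⟩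
    rw [LinearMap.comp_apply, hg x]
    rfl

/-- **Main theorem.** Over every field `K` the following are equivalent: (1) for every
finite-dimensional `K`-algebra `A`, the Nakayama conjecture or the first Tachikawa conjecture
holds for `A`; (2) the same for all `A = End_S(S × N)` with `S` a Frobenius algebra; (3) the
Nakayama conjecture; (4) the first Tachikawa conjecture; (5) the second Tachikawa conjecture;
(6) the Auslander–Reiten conjecture. -/
theorem result (K : Type) [Field K] :
    List.TFAE [
      ∀ (A : Type) [Ring A] [Algebra K A] [FiniteDimensional K A], NC A ∨ TC1 K A,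
      ∀ (S N : Type) [Ring S] [Algebra K S] [FiniteDimensional K S] [AddCommGroup N] [Module K N]
        [Module S N] [IsScalarTower K S N] [Module.Finite S N],
        (∃ lam : S →ₗ[K] K, ∀ t : S, (∀ s, lam (s * t) = 0) → t = 0) →
          NC (Module.End S (S × N)) ∨ TC1 K (Module.End S (S × N)),
      ∀ (A : Type) [Ring A] [Algebra K A] [FiniteDimensional K A], NC A,
      ∀ (A : Type) [Ring A] [Algebra K A] [FiniteDimensional K A], TC1 K A,
      ∀ (A : Type) [Ring A] [Algebra K A] [FiniteDimensional K A], TC2 A,
      ∀ (A : Type) [Ring A] [Algebra K A] [FiniteDimensional K A], ARC A] := by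
  tfae_have 6 → 3 := by
    intro h A _ _ _ hA
    exact nc_of_arc (K := K) (fun B _ _ _ M _ _ _ h1 h2 => h B M h1 h2) hA
  tfae_have 6 → 4 := by
    intro h A _ _ _ hA
    constructor
    · apply left_injective_of_projective (K := K)
      have := DL.finite (K := K) (A := Aᵐᵒᵖ)
      exact h Aᵐᵒᵖ (DL K Aᵐᵒᵖ) (extZero_of_injective DL.injective) (extZero_op hA)
    · apply right_injective_of_projective (K := K)
      have := DL.finite (K := K) (A := A)
      exact h A (DL K A) (extZero_of_injective DL.injective) hA
  tfae_have 3 → 1 := by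
    intro h A _ _ _
    exact Or.inl (h A)
  tfae_have 4 → 1 := by
    intro h A _ _ _
    exact Or.inr (h A)
  tfae_have 1 → 2 := by
    intro h S N _ _ _ _ _ _ _ _ _
    have hfinK : FiniteDimensional K N := Module.Finite.trans S _
    have : FiniteDimensional K (Module.End S (S × N)) := by
      refine Module.Finite.of_injective
        (LinearMap.restrictScalarsₗ K S (S × N) (S × N) K) ?_
      exact LinearMap.restrictScalars_injective K
    exact h _
  tfae_have 2 → 6 := by
    intro h A _ _ _ M _ _ _ hM hA
    have hfin : Module.Finite (Cyc K A) (Ind K A M) := Ind.finite'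
    refine main_step (K := K) M hM hA (Or.inl (h (Cyc K A) (Ind K A M) ⟨Cyc.lam, ?_⟩))
    exact Cyc.frob.nondeg
  tfae_have 6 → 5 := by
    intro h A _ _ _ hA M _ _ _ hM
    exact h A M hM (extZero_of_injective hA.1)
  tfae_have 5 → 6 := by
    intro h A _ _ _ M _ _ _ hM hA
    exact main_step (K := K) M hM hA (Or.inr (h (Cyc K A)))
  tfae_finish

end Pool.Agent.Results.MP_5dc868_al.ArcEquivalence
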