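import Mathlib
import Pool.Agent.Lib.P5dc868.Defs
import Pool.Agent.Lib.P5dcF.Stmt
import Pool.Agent.Lib.P5dcF.Fin

/-!
# MP_5dc868_al: Q1 is a question on finite algebras over finite fields

`K` is a field, `A` a finite-dimensional `K`-algebra. `DL K A` (the left module
`D(A) = Hom_K(A, K)`), `ExtZero` (`Ext^i = 0` for all `i ≥ 1`) and `DomDimInf` (infinite dominant
dimension) are defined in `Pool.Agent.Lib.P5dc868.Defs`. The other definitions are in
`Pool.Agent.Lib.P5dcF.Stmt`; `S` is a set of characteristics:

* `SelfInj A`: `A` is injective as a left and as a right module;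
* `NC A`: `DomDimInf A` implies `SelfInj A`; `TC1 K A`: `ExtZero A (DL K A) A` implies
  `SelfInj A`; `Q1 K`: `NC A` or `TC1 K A` for all finite-dimensional `K`-algebras `A`;
* `ExtUpTo R n M Y`: `Ext^i_R(M, Y) = 0` for `1 ≤ i ≤ n`; `DomDimGE A n`: the dominant dimension
  of `A` is at least `n`;
* `Q1n m n K`, `NCn m n K`: `DomDimGE A n` and `ExtUpTo A n (DL K A) A`, respectively
  `DomDimGE A n`, implies `SelfInj A` for the `K`-algebras of dimension at most `m`;
* `TC m K`, `TCn m n K`: `ExtZero A (DL K A) A`, respectively `ExtUpTo A n (DL K A) A`, implies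
  `SelfInj A` for the `K`-algebras of dimension `m`;
* `ARC m d K`, `ARCn m d n K`: the modules `M` of dimension `d` over the `K`-algebras `A` of
  dimension `m` are projective if `Ext^i(M, M) = 0 = Ext^i(M, A)` for all `i ≥ 1`, respectively
  for `1 ≤ i ≤ n`;
* `IsCl S`: `S` consists of primes and possibly `0`, and contains `0` if it is infinite;
* `Over S P`: `P K` for all fields `K` with characteristic in `S`;
* `InfTr K`: `K` has infinite transcendence degree over its prime field;
* `OverOne S P`, `OverOneCl S P`: for each `r` in `S`, `P K` for one field, respectively one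
  algebraically closed field, `K` of characteristic `r` with `InfTr K`;
* `Uniform S P`: for some `n`, `P n K` for all fields `K` whose characteristic is in `S` or, if
  `0` is in `S`, greater than `n`;
* `UniformFin S P`: for some `n` and some set `C` of primes, containing the primes in `S` and
  infinite if `0` is in `S`, `P n K` for all finite fields `K` with characteristic in `C`;
* `UniformPrime S P`: for some `n`, `P n K` for all finite fields `K` with characteristic in `S`
  and, if `0` is in `S`, `P n (ZMod p)` for all primes `p > n`.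
-/

namespace Pool.Agent.Results.MP_5dc868_al.FiniteFields

open Pool.Agent.Lib.P5dc868 Pool.Agent.Lib.P5dcF

theorem result (S : Set ℕ) (hS : IsCl S) :
    List.TFAE [Over S @Q1, OverOne S @Q1,
      ∀ m, Uniform S (fun n => @Q1n m n), ∀ m, UniformFin S (fun n => @Q1n m n),
      ∀ m, UniformPrime S (fun n => @Q1n m n),
      ∀ m, Uniform S (fun n => @NCn m n), ∀ m, UniformFin S (fun n => @NCn m n),
      ∀ m, UniformPrime S (fun n => @NCn m n),
      ∀ m, Uniform S (fun n => @TCn m n), ∀ m, UniformFin S (fun n => @TCn m n),
      ∀ m, UniformPrime S (fun n => @TCn m n),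
      ∀ m d, Uniform S (fun n => @ARCn m d n), ∀ m d, UniformFin S (fun n => @ARCn m d n),
      ∀ m d, UniformPrime S (fun n => @ARCn m d n)] ∧
    (∀ m, List.TFAE [Over S (@TC m), OverOneCl S (@TC m), Uniform S (fun n => @TCn m n),
      UniformFin S (fun n => @TCn m n), UniformPrime S (fun n => @TCn m n)]) ∧
    ∀ m d, List.TFAE [Over S (@ARC m d), OverOneCl S (@ARC m d),
      Uniform S (fun n => @ARCn m d n), UniformFin S (fun n => @ARCn m d n),
      UniformPrime S (fun n => @ARCn m d n)] :=
  ⟨q1_tfae hS, tc_tfae hS, arc_tfae hS⟩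

end Pool.Agent.Results.MP_5dc868_al.FiniteFields
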