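import Mathlib
import Pool.Agent.Lib.P5dc868.Defs
import Pool.Agent.Lib.P5dc868.DLm
import Pool.Agent.Lib.P5dcG.Stmt
import Pool.Agent.Lib.P5dcG.ResG
import Pool.Agent.Lib.P5dcG.NcG

/-!
# MP_5dc868_al: the resolutions in a counterexample tend to infinity

`K` is a field and `A` a finite-dimensional `K`-algebra. `DL K A` is the left module
`D(A) = Hom_K(A, K)` (file `Pool.Agent.Lib.P5dc868.Defs`). The other definitions are in
`Pool.Agent.Lib.P5dcG.Stmt`:

* `Resolution A M P ε d`: `P` is a resolution of `M` by finitely generated projective modules;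
* `Coresolution A X J ε d`: `0 → X → J 0 → J 1 → ⋯` is exact;
* `ProjInj A J`: `J` is finitely generated, projective and injective;
* `StabIso A X X'`: `X ⊕ Q ≅ X' ⊕ Q'` for some finitely generated projective `Q`, `Q'`;
* `bd m D = ((m + 1) (D + 1)) ^ (3 m D² + 1)`;
* `Growth K A P N`: for every `D`, at most `bd (dim A) D` of the modules `P n`, `n < N`, have
  dimension at most `D`.
-/

namespace Pool.Agent.Results.MP_5dc868_al.ResolutionGrowth

open CategoryTheory Abelian Pool.Agent.Lib.P5dc868 Pool.Agent.Lib.P5dcG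

theorem result (K A : Type) [Field K] [Ring A] [Algebra K A] [FiniteDimensional K A]
    (P : ℕ → Type) [∀ n, AddCommGroup (P n)] [∀ n, Module A (P n)] [∀ n, Module K (P n)]
    [∀ n, IsScalarTower K A (P n)] (N : ℕ) :
    (∀ (ε : P 0 →ₗ[A] DL K A) (d : ∀ n, P (n + 1) →ₗ[A] P n), Resolution A (DL K A) P ε d →
      (∀ i, 1 ≤ i → i ≤ N + 1 →
        Subsingleton (Ext (ModuleCat.of A (DL K A)) (ModuleCat.of A A) i)) →
      Module.Injective Aᵐᵒᵖ A ∨ Growth K A P N) ∧
    (∀ (X : Type) [AddCommGroup X] [Module A X] (ε : X →ₗ[A] P 0)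
      (d : ∀ n, P n →ₗ[A] P (n + 1)), Coresolution A X P ε d →
      (∀ n, n < N → ProjInj A (P n)) → Module.Projective A X →
      Module.Injective A X ∨ Growth K A P N) ∧
    ∀ (M : Type) [AddCommGroup M] [Module A M] (ε : P 0 →ₗ[A] M)
      (d : ∀ n, P (n + 1) →ₗ[A] P n), Resolution A M P ε d →
      (∀ i, 1 ≤ i → i ≤ N + 1 → Subsingleton (Ext (ModuleCat.of A M) (ModuleCat.of A A) i)) →
      (Module.Injective A M → Module.Projective A M ∨ Growth K A P N) ∧
      ((∀ i, 1 ≤ i → i ≤ N → Subsingleton (Ext (ModuleCat.of A M) (ModuleCat.of A M) i)) →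
        Module.Projective A M ∨ Growth K A P N) ∧
      (Subsingleton (Ext (ModuleCat.of A M) (ModuleCat.of A M) 1) →
        (∃ k, k + 1 < N ∧ StabIso A M (LinearMap.range (d k))) ∨ Growth K A P N) := by
  refine ⟨fun ε d h hA => ?_, fun X _ _ ε d h hJ hX => cogrowth (K := K) h N hJ hX,
    fun M _ _ ε d h hA => ⟨growth_of_injective (K := K) h N hA,
      growth_of_selfExt (K := K) h N hA,
      fun hM => (growth_or_periodic (K := K) h N hA hM).symm⟩⟩
  rcases growth_of_injective (K := K) h N hA DL.injective with h1 | h1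
  · exact Or.inl (right_injective_of_projective (K := K) h1)
  · exact Or.inr h1

end Pool.Agent.Results.MP_5dc868_al.ResolutionGrowth
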