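import Mathlib
import Pool.Agent.Lib.P5dc868.Defs
import Pool.Agent.Lib.P5dcF.Stmt
import Pool.Agent.Lib.P5dcF.StmtT
import Pool.Agent.Lib.P5dcF.Tra

/-!
# MP_5dc868_al: from single modules to single algebras and back, at every level

`K` is a field. `DL K A` (the left module `D(A) = Hom_K(A, K)`), `ExtZero` (`Ext^i = 0` for all
`i ≥ 1`) and `DomDimInf` (infinite dominant dimension) are defined in
`Pool.Agent.Lib.P5dc868.Defs`, `ExtUpTo` (`Ext^i = 0` for `1 ≤ i ≤ n`) and `DomDimGE` (dominant
dimension at least `n`) in `Pool.Agent.Lib.P5dcF.Stmt`, and in `Pool.Agent.Lib.P5dcF.StmtT`: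

* `HasAlgebra K B M`: there is a `K`-algebra `E` of dimension at most `(6 b + m + m b)²`,
  `b = dim B`, `m = dim M`, such that for every level `n`, finite or infinite,
  `Ext^i(M, M) = 0 = Ext^i(M, B)` for `1 ≤ i ≤ n` implies `domdim E ≥ n + 2` and
  `Ext^i(D(E), E) = 0` for `1 ≤ i ≤ n`, and `M` is projective if `E` is left or right
  selfinjective;
* `HasPair K A I`: there are a `K`-algebra `B` of dimension at most `(dim A)⁴` and a `B`-module
  `M` of dimension at most `(dim A)²` such that for every level `n`, finite or infinite,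
  `domdim A ≥ n + 2` implies `Ext^i(M, M) = 0 = Ext^i(M, B)` for `1 ≤ i ≤ n`, and `I` holds if
  `M` is projective.
-/

namespace Pool.Agent.Results.MP_5dc868_al.SingleModules

open Pool.Agent.Lib.P5dc868 Pool.Agent.Lib.P5dcF

theorem result (K : Type) [Field K] :
    (∀ (B M : Type) [Ring B] [Algebra K B] [FiniteDimensional K B] [AddCommGroup M]
      [Module K M] [Module B M] [IsScalarTower K B M] [FiniteDimensional K M],
      HasAlgebra K B M) ∧
    ∀ (A : Type) [Ring A] [Algebra K A] [FiniteDimensional K A], DomDimGE A 2 →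
      HasPair K A (Module.Injective A A) ∧ HasPair K A (Module.Injective Aᵐᵒᵖ A) :=
  ⟨fun B M _ _ _ _ _ _ _ _ => hasAlgebra K B M, fun _ _ _ _ hA => hasPair K hA⟩

end Pool.Agent.Results.MP_5dc868_al.SingleModules
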